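import Pool.Agent.P8H19.AO.Stm

/-!
# Project AO, package BLK: commuting isometries act through blocks of dimension one and two
-/

set_option autoImplicit false

open Finset ComplexConjugate Module

namespace Pool.Agent.P8H65.AO

open Pool.Agent.P8H19.AO

/-! ### Algebra -/

/-- the identity behind the blocks, in a commutative ring -/
lemma ring_id {A : Type*} [CommRing A] (a₀ b₀ aj bj ak bk al bl : A) (h0 : a₀ * b₀ = 1)
    (hk : ak * bk = 1) :
    (2 * (bj * ak + bk * aj) - (b₀ * aj + bj * a₀) * (b₀ * ak + bk * a₀)) *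
      (2 * (bk * al + bl * ak) - (b₀ * ak + bk * a₀) * (b₀ * al + bl * a₀)) =
    (4 - (b₀ * ak + bk * a₀) * (b₀ * ak + bk * a₀)) *
      (2 * (bj * al + bl * aj) - (b₀ * aj + bj * a₀) * (b₀ * al + bl * a₀)) := by
  have h1 : 2 * (bj * ak + bk * aj) - (b₀ * aj + bj * a₀) * (b₀ * ak + bk * a₀) =
      -((b₀ * aj - bj * a₀) * (b₀ * ak - bk * a₀)) := by
    linear_combination (-2 * (aj * bk + bj * ak)) * h0
  have h2 : 2 * (bk * al + bl * ak) - (b₀ * ak + bk * a₀) * (b₀ * al + bl * a₀) =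
      -((b₀ * ak - bk * a₀) * (b₀ * al - bl * a₀)) := by
    linear_combination (-2 * (ak * bl + bk * al)) * h0
  have h3 : 2 * (bj * al + bl * aj) - (b₀ * aj + bj * a₀) * (b₀ * al + bl * a₀) =
      -((b₀ * aj - bj * a₀) * (b₀ * al - bl * a₀)) := by
    linear_combination (-2 * (aj * bl + bj * al)) * h0
  have h4 : 4 - (b₀ * ak + bk * a₀) * (b₀ * ak + bk * a₀) =
      -((b₀ * ak - bk * a₀) * (b₀ * ak - bk * a₀)) := by
    linear_combination (-4 * ak * bk) * h0 - 4 * hk
  rw [h1, h2, h3, h4]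
  ring

/-- the Gram matrix of a block -/
lemma gram {M : ℕ} (e : Fin M → Fin M → ℝ) (hs : ∀ j k, e j k = e k j) (h1 : ∀ j, e j j = 1)
    (hb : ∀ j k, |e j k| ≤ 1)
    (hr : ∀ o j k l, (e j k - e o j * e o k) * (e k l - e o k * e o l) =
      (1 - e o k * e o k) * (e j l - e o j * e o l)) :
    ∃ z : Fin M → ℂ, (∀ j, ‖z j‖ = 1) ∧ ∀ j k, e j k = (z j * conj (z k)).re := by
  rcases Nat.eq_zero_or_pos M with hM | hM
  · subst hM
    exact ⟨fun _ => 1, fun j => j.elim0, fun j => j.elim0⟩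
  obtain ⟨o, -⟩ : ∃ o : Fin M, True := ⟨⟨0, hM⟩, trivial⟩
  obtain ⟨c, hc⟩ : ∃ c : Fin M → ℝ, c = fun j => e o j := ⟨_, rfl⟩
  obtain ⟨d, hd⟩ : ∃ d : Fin M → Fin M → ℝ, d = fun j k => e j k - c j * c k := ⟨_, rfl⟩
  have dr : ∀ j k l, d j k * d k l = d k k * d j l := by
    intro j k l
    rw [hd, hc]
    have := hr o j k l
    show (e j k - e o j * e o k) * (e k l - e o k * e o l) =
      (e k k - e o k * e o k) * (e j l - e o j * e o l)
    rw [h1 k]
    exact this
  have ds : ∀ j k, d j k = d k j := by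
    intro j k
    rw [hd]
    show e j k - c j * c k = e k j - c k * c j
    rw [hs j k]
    ring
  have dd : ∀ j, 0 ≤ d j j := by
    intro j
    have h2 := hb o j
    have h3 := abs_le.1 h2
    rw [hd, hc]
    show 0 ≤ e j j - e o j * e o j
    rw [h1 j]
    nlinarith
  have key : ∃ t : Fin M → ℝ, ∀ j k, d j k = t j * t k := by
    by_cases hz : ∃ p, 0 < d p p
    · obtain ⟨p, hp⟩ := hz
      have hsq : √(d p p) * √(d p p) = d p p := Real.mul_self_sqrt hp.le
      refine ⟨fun j => d p j / √(d p p), fun j k => ?_⟩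
      have h2 := dr j p k
      rw [ds j p] at h2
      have h3 : d p j / √(d p p) * (d p k / √(d p p)) = (d p j * d p k) / (√(d p p) * √(d p p)) := by
        ring
      show d j k = d p j / √(d p p) * (d p k / √(d p p))
      rw [h3, hsq, h2, mul_div_assoc, mul_comm, div_mul_cancel₀ _ hp.ne']
    · push Not at hz
      refine ⟨fun _ => 0, fun j k => ?_⟩
      have h2 := dr j k j
      have h3 : d k k = 0 := le_antisymm (hz k) (dd k)
      rw [ds k j, h3, zero_mul] at h2
      rw [mul_zero]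
      exact mul_self_eq_zero.1 h2
  obtain ⟨t, ht⟩ := key
  have he : ∀ j k, e j k = c j * c k + t j * t k := by
    intro j k
    have h2 := ht j k
    rw [hd] at h2
    have h3 : e j k - c j * c k = t j * t k := h2
    linarith
  refine ⟨fun j => ⟨c j, t j⟩, fun j => ?_, fun j k => ?_⟩
  · have h2 : ‖(⟨c j, t j⟩ : ℂ)‖ ^ 2 = 1 := by
      rw [Complex.sq_norm, Complex.normSq_mk, ← he, h1]
    have h3 : 0 ≤ ‖(⟨c j, t j⟩ : ℂ)‖ := norm_nonneg _
    nlinarith [h3]
  · rw [he j k]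
    simp

/-! ### Operators -/

variable {n M : ℕ} (U : Fin M → (EuclideanSpace ℝ (Fin n) ≃ₗᵢ[ℝ] EuclideanSpace ℝ (Fin n)))

/-- the isometry as an endomorphism -/
noncomputable def uu (j : Fin M) : Module.End ℝ (EuclideanSpace ℝ (Fin n)) :=
  (U j).toLinearEquiv.toLinearMap

/-- its inverse -/
noncomputable def vv (j : Fin M) : Module.End ℝ (EuclideanSpace ℝ (Fin n)) :=
  (U j).symm.toLinearEquiv.toLinearMap

lemma uu_apply (j : Fin M) (x : EuclideanSpace ℝ (Fin n)) : uu U j x = U j x := rfl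
lemma vv_apply (j : Fin M) (x : EuclideanSpace ℝ (Fin n)) : vv U j x = (U j).symm x := rfl

/-- the symmetric operators -/
noncomputable def SS (p : Fin M × Fin M) : Module.End ℝ (EuclideanSpace ℝ (Fin n)) :=
  vv U p.1 * uu U p.2 + vv U p.2 * uu U p.1

lemma uv (j : Fin M) : uu U j * vv U j = 1 := by
  refine LinearMap.ext (fun x => ?_)
  show U j ((U j).symm x) = x
  simp

variable (hU : ∀ j k, ∀ x, U j (U k x) = U k (U j x))

include hU

lemma comm_uv (j k : Fin M) (x : EuclideanSpace ℝ (Fin n)) :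
    (U j).symm (U k x) = U k ((U j).symm x) := by
  apply (U j).injective
  rw [LinearIsometryEquiv.apply_symm_apply, hU j k, LinearIsometryEquiv.apply_symm_apply]

lemma comm_vv (j k : Fin M) (x : EuclideanSpace ℝ (Fin n)) :
    (U j).symm ((U k).symm x) = (U k).symm ((U j).symm x) := by
  apply (U k).injective
  rw [LinearIsometryEquiv.apply_symm_apply, ← comm_uv U hU j k, LinearIsometryEquiv.apply_symm_apply]

/-- the generators -/
def gens : Set (Module.End ℝ (EuclideanSpace ℝ (Fin n))) := Set.range (uu U) ∪ Set.range (vv U)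

omit hU in
lemma mem_u (j : Fin M) : uu U j ∈ Algebra.adjoin ℝ (gens U) :=
  Algebra.subset_adjoin (Or.inl ⟨j, rfl⟩)

omit hU in
lemma mem_v (j : Fin M) : vv U j ∈ Algebra.adjoin ℝ (gens U) :=
  Algebra.subset_adjoin (Or.inr ⟨j, rfl⟩)

lemma gens_comm : ∀ a ∈ gens U, ∀ b ∈ gens U, a * b = b * a := by
  rintro a (⟨j, rfl⟩ | ⟨j, rfl⟩) b (⟨k, rfl⟩ | ⟨k, rfl⟩)
  · exact LinearMap.ext (fun x => hU j k x)
  · exact LinearMap.ext (fun x => (comm_uv U hU k j x).symm)
  · exact LinearMap.ext (fun x => comm_uv U hU j k x)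
  · exact LinearMap.ext (fun x => comm_vv U hU j k x)

/-- the identity for the operators -/
lemma op_id (o j k l : Fin M) :
    (2 * SS U (j, k) - SS U (o, j) * SS U (o, k)) * (2 * SS U (k, l) - SS U (o, k) * SS U (o, l)) =
      (4 - SS U (o, k) * SS U (o, k)) * (2 * SS U (j, l) - SS U (o, j) * SS U (o, l)) := by
  let _ := Algebra.adjoinCommRingOfComm ℝ (gens_comm U hU)
  have h := ring_id (A := Algebra.adjoin ℝ (gens U)) ⟨uu U o, mem_u U o⟩ ⟨vv U o, mem_v U o⟩
    ⟨uu U j, mem_u U j⟩ ⟨vv U j, mem_v U j⟩ ⟨uu U k, mem_u U k⟩ ⟨vv U k, mem_v U k⟩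
    ⟨uu U l, mem_u U l⟩ ⟨vv U l, mem_v U l⟩ (Subtype.ext (uv U o)) (Subtype.ext (uv U k))
  exact congrArg Subtype.val h

lemma SS_comm (p q : Fin M × Fin M) : SS U p * SS U q = SS U q * SS U p := by
  let _ := Algebra.adjoinCommRingOfComm ℝ (gens_comm U hU)
  have h : ∀ a b : Algebra.adjoin ℝ (gens U), a * b = b * a := fun a b => mul_comm a b
  have m : ∀ p, SS U p ∈ Algebra.adjoin ℝ (gens U) := fun p =>
    add_mem (mul_mem (mem_v U _) (mem_u U _)) (mul_mem (mem_v U _) (mem_u U _))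
  exact congrArg Subtype.val (h ⟨SS U p, m p⟩ ⟨SS U q, m q⟩)

lemma SS_u (p : Fin M × Fin M) (j : Fin M) (x : EuclideanSpace ℝ (Fin n)) :
    SS U p (U j x) = U j (SS U p x) := by
  let _ := Algebra.adjoinCommRingOfComm ℝ (gens_comm U hU)
  have h : ∀ a b : Algebra.adjoin ℝ (gens U), a * b = b * a := fun a b => mul_comm a b
  have m : ∀ p, SS U p ∈ Algebra.adjoin ℝ (gens U) := fun p =>
    add_mem (mul_mem (mem_v U _) (mem_u U _)) (mul_mem (mem_v U _) (mem_u U _))
  have h2 := congrArg Subtype.val (h ⟨SS U p, m p⟩ ⟨uu U j, mem_u U j⟩)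
  exact LinearMap.congr_fun h2 x

omit hU

lemma SS_inner (j k : Fin M) (x y : EuclideanSpace ℝ (Fin n)) :
    inner ℝ x (SS U (j, k) y) = inner ℝ (U j x) (U k y) + inner ℝ (U k x) (U j y) := by
  show inner ℝ x ((U j).symm (U k y) + (U k).symm (U j y)) = _
  rw [inner_add_right, LinearIsometryEquiv.inner_map_eq_flip, LinearIsometryEquiv.inner_map_eq_flip]

lemma SS_symm (p : Fin M × Fin M) : (SS U p).IsSymmetric := by
  intro x y
  obtain ⟨j, k⟩ := p
  rw [SS_inner, real_inner_comm, SS_inner, real_inner_comm (U j x), real_inner_comm (U k x)]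
  rw [add_comm]

/-- the relation between the joint eigenvalues -/
lemma eig_rel (hU : ∀ j k, ∀ x, U j (U k x) = U k (U j x)) (v : EuclideanSpace ℝ (Fin n)) (hv : v ≠ 0)
    (s : Fin M × Fin M → ℝ) (hs : ∀ p, SS U p v = s p • v) (o j k l : Fin M) :
    (2 * s (j, k) - s (o, j) * s (o, k)) * (2 * s (k, l) - s (o, k) * s (o, l)) =
      (4 - s (o, k) * s (o, k)) * (2 * s (j, l) - s (o, j) * s (o, l)) := by
  have h := LinearMap.congr_fun (op_id U hU o j k l) v
  have hm : ∀ (X Y : Module.End ℝ (EuclideanSpace ℝ (Fin n))) (x y : ℝ), X v = x • v → Y v = y • v →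
      (X * Y) v = (x * y) • v := by
    intro X Y x y hX hY
    rw [Module.End.mul_apply, hY, map_smul, hX, smul_smul, mul_comm]
  have hsub : ∀ (X Y : Module.End ℝ (EuclideanSpace ℝ (Fin n))) (x y : ℝ), X v = x • v → Y v = y • v →
      (X - Y) v = (x - y) • v := by
    intro X Y x y hX hY
    rw [LinearMap.sub_apply, hX, hY, sub_smul]
  have h2 : (2 : Module.End ℝ (EuclideanSpace ℝ (Fin n))) v = (2 : ℝ) • v := by
    show ((2 : ℕ) : Module.End ℝ (EuclideanSpace ℝ (Fin n))) v = _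
    rw [Module.End.natCast_apply]
    rw [two_nsmul, two_smul]
  have h4 : (4 : Module.End ℝ (EuclideanSpace ℝ (Fin n))) v = (4 : ℝ) • v := by
    have e : (4 : Module.End ℝ (EuclideanSpace ℝ (Fin n))) = 2 * 2 := by norm_num
    rw [e, hm 2 2 2 2 h2 h2]
    norm_num
  have hX := hm _ _ _ _ (hsub _ _ _ _ (hm _ _ _ _ h2 (hs (j, k))) (hm _ _ _ _ (hs (o, j)) (hs (o, k))))
    (hsub _ _ _ _ (hm _ _ _ _ h2 (hs (k, l))) (hm _ _ _ _ (hs (o, k)) (hs (o, l))))
  have hY := hm _ _ _ _ (hsub _ _ _ _ h4 (hm _ _ _ _ (hs (o, k)) (hs (o, k))))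
    (hsub _ _ _ _ (hm _ _ _ _ h2 (hs (j, l))) (hm _ _ _ _ (hs (o, j)) (hs (o, l))))
  rw [hX, hY] at h
  have h3 := sub_eq_zero.2 h
  rw [← sub_smul, smul_eq_zero] at h3
  rcases h3 with h3 | h3
  · linarith
  · exact absurd h3 hv

/-- an orthonormal basis of joint eigenvectors -/
lemma exists_basis (hU : ∀ j k, ∀ x, U j (U k x) = U k (U j x)) :
    ∃ (b : OrthonormalBasis (Fin n) ℝ (EuclideanSpace ℝ (Fin n))) (α : Fin n → (Fin M × Fin M → ℝ)),
      ∀ i p, SS U p (b i) = α i p • b i := by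
  classical
  obtain ⟨V, hV⟩ : ∃ V : (Fin M × Fin M → ℝ) → Submodule ℝ (EuclideanSpace ℝ (Fin n)),
      V = fun γ => ⨅ p, Module.End.eigenspace (SS U p) (γ p) := ⟨_, rfl⟩
  have hint : DirectSum.IsInternal V := by
    rw [hV]
    exact LinearMap.IsSymmetric.directSum_isInternal_of_pairwise_commute (fun p => SS_symm U p)
      (fun p q _ => SS_comm U hU p q)
  have key : ∀ γ, ∀ y ∈ V γ, ∀ p, SS U p y = γ p • y := by
    intro γ y hy p
    rw [hV] at hy
    exact Module.End.mem_eigenspace_iff.1 ((Submodule.mem_iInf _).1 hy p)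
  have hort : OrthogonalFamily ℝ (fun γ => V γ) fun γ => (V γ).subtypeₗᵢ := by
    rw [hV]
    exact LinearMap.IsSymmetric.orthogonalFamily_iInf_eigenspaces (fun p => SS_symm U p)
  have hfin : Finite {γ // V γ ≠ ⊥} := by
    have := WellFoundedGT.finite_ne_bot_of_iSupIndep hint.submodule_iSupIndep
    exact this
  have : Fintype {γ // V γ ≠ ⊥} := Fintype.ofFinite _
  have hint' : DirectSum.IsInternal (fun γ : {γ // V γ ≠ ⊥} => V γ) :=
    DirectSum.isInternal_ne_bot_iff.2 hint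
  have hort' : OrthogonalFamily ℝ (fun γ : {γ // V γ ≠ ⊥} => V γ) fun γ => (V γ).subtypeₗᵢ :=
    hort.comp Subtype.val_injective
  have hn : finrank ℝ (EuclideanSpace ℝ (Fin n)) = n := finrank_euclideanSpace_fin
  refine ⟨hint'.subordinateOrthonormalBasis hn hort',
    fun i => (hint'.subordinateOrthonormalBasisIndex hn i hort').1, fun i p => ?_⟩
  exact key _ _ (hint'.subordinateOrthonormalBasis_subordinate hn i hort') p

/-- **BLK.** -/
theorem t_BLK : S_BLK := by
  classical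
  intro n M U hU x hx
  obtain ⟨b, α, hb⟩ := exists_basis U hU
  obtain ⟨w, hw⟩ : ∃ w : Fin n → ℝ, w = fun i => inner ℝ (b i) x ^ 2 := ⟨_, rfl⟩
  have w0 : ∀ i, 0 ≤ w i := fun i => by rw [hw]; positivity
  have w1 : ∑ i, w i = 1 := by
    have h := b.sum_sq_norm_inner_right x
    rw [hx, one_pow] at h
    rw [← h, hw]
    refine Finset.sum_congr rfl (fun i _ => ?_)
    rw [Real.norm_eq_abs, sq_abs]
  -- inner products
  have hin : ∀ j k, inner ℝ (U j x) (U k x) = ∑ i, w i * (α i (j, k) / 2) := by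
    intro j k
    have h1 := SS_inner U j k x x
    rw [real_inner_comm (U j x) (U k x)] at h1
    have h2 : inner ℝ x (SS U (j, k) x) = ∑ i, w i * α i (j, k) := by
      rw [← b.sum_inner_mul_inner x (SS U (j, k) x)]
      refine Finset.sum_congr rfl (fun i _ => ?_)
      have h3 : inner ℝ (b i) (SS U (j, k) x) = α i (j, k) * inner ℝ (b i) x := by
        rw [← SS_symm U (j, k) (b i) x, hb, real_inner_smul_left]
      have h5 : inner ℝ x (b i) = inner ℝ (b i) x := real_inner_comm _ _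
      rw [h3, h5, hw]
      ring
    have h4 : ∑ i, w i * (α i (j, k) / 2) = (∑ i, w i * α i (j, k)) / 2 := by
      rw [Finset.sum_div]
      exact Finset.sum_congr rfl (fun i _ => by ring)
    rw [h4, ← h2, h1]
    have h5 : inner ℝ (U k x) (U j x) = inner ℝ (U j x) (U k x) := real_inner_comm _ _
    linarith
  -- for one eigenvector
  have hself : ∀ i j k, α i (j, k) = inner ℝ (U j (b i)) (U k (b i)) + inner ℝ (U k (b i)) (U j (b i)) := by
    intro i j k
    rw [← SS_inner U j k (b i) (b i), hb, real_inner_smul_right, real_inner_self_eq_norm_sq,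
      b.orthonormal.1 i]
    ring
  have hself2 : ∀ i j k, α i (j, k) / 2 = inner ℝ (U j (b i)) (U k (b i)) := by
    intro i j k
    have h1 := hself i j k
    have h5 : inner ℝ (U k (b i)) (U j (b i)) = inner ℝ (U j (b i)) (U k (b i)) := real_inner_comm _ _
    linarith
  have nrm1 : ∀ i j, ‖U j (b i)‖ = 1 := by
    intro i j
    rw [LinearIsometryEquiv.norm_map]
    exact b.orthonormal.1 i
  -- blocks of dimension two
  have hz : ∀ i, ∃ z : Fin M → ℂ, (∀ j, ‖z j‖ = 1) ∧ ∀ j k, α i (j, k) / 2 = (z j * conj (z k)).re := by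
    intro i
    refine gram (fun j k => α i (j, k) / 2) ?_ ?_ ?_ ?_
    · intro j k
      show α i (j, k) / 2 = α i (k, j) / 2
      rw [hself2, hself2, real_inner_comm]
    · intro j
      show α i (j, j) / 2 = 1
      rw [hself2, real_inner_self_eq_norm_sq, nrm1, one_pow]
    · intro j k
      show |α i (j, k) / 2| ≤ 1
      rw [hself2]
      have h := abs_real_inner_le_norm (U j (b i)) (U k (b i))
      rw [nrm1, nrm1, mul_one] at h
      exact h
    · intro o j k l
      have h := eig_rel U hU (b i) (b.orthonormal.ne_zero i) (α i) (hb i) o j k l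
      show (α i (j, k) / 2 - α i (o, j) / 2 * (α i (o, k) / 2)) *
        (α i (k, l) / 2 - α i (o, k) / 2 * (α i (o, l) / 2)) =
        (1 - α i (o, k) / 2 * (α i (o, k) / 2)) * (α i (j, l) / 2 - α i (o, j) / 2 * (α i (o, l) / 2))
      linear_combination (1 / 16) * h
  -- blocks of dimension one
  have hone : ∀ i, (∀ l, α l = α i → l = i) → ∃ s : Fin M → ℝ, (∀ j, s j = 1 ∨ s j = -1) ∧
      ∀ j k, α i (j, k) / 2 = s j * s k := by
    intro i hi
    have h1 : ∀ j l, l ≠ i → inner ℝ (b l) (U j (b i)) = 0 := by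
      intro j l hl
      have hne : α l ≠ α i := fun h => hl (hi l h)
      obtain ⟨p, hp⟩ := Function.ne_iff.1 hne
      have h2 : inner ℝ (SS U p (b l)) (U j (b i)) = inner ℝ (b l) (SS U p (U j (b i))) :=
        SS_symm U p _ _
      rw [hb, SS_u U hU, hb, map_smul, real_inner_smul_left, real_inner_smul_right] at h2
      have h3 : (α l p - α i p) * inner ℝ (b l) (U j (b i)) = 0 := by linarith
      rcases mul_eq_zero.1 h3 with h4 | h4
      · exact absurd (sub_eq_zero.1 h4) hp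
      · exact h4
    have h2 : ∀ j, U j (b i) = (inner ℝ (b i) (U j (b i)) : ℝ) • b i := by
      intro j
      conv_lhs => rw [← b.sum_repr' (U j (b i))]
      rw [Finset.sum_eq_single i]
      · intro l _ hl
        rw [h1 j l hl, zero_smul]
      · intro h
        exact absurd (Finset.mem_univ i) h
    refine ⟨fun j => inner ℝ (b i) (U j (b i)), fun j => ?_, fun j k => ?_⟩
    · have h3 := nrm1 i j
      rw [h2 j, norm_smul, b.orthonormal.1 i, mul_one, Real.norm_eq_abs] at h3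
      exact eq_or_eq_neg_of_abs_eq h3
    · rw [hself2, h2 j, h2 k, real_inner_smul_left, real_inner_smul_right, real_inner_self_eq_norm_sq,
        b.orthonormal.1 i]
      ring
  -- grouping
  obtain ⟨Q, hQ⟩ : ∃ Q : Finset (Fin M × Fin M → ℝ), Q = Finset.univ.image α := ⟨_, rfl⟩
  obtain ⟨cnt, hcnt⟩ : ∃ cnt : (Fin M × Fin M → ℝ) → ℕ,
      cnt = fun β => (Finset.univ.filter (fun i => α i = β)).card := ⟨_, rfl⟩
  obtain ⟨W, hW⟩ : ∃ W : (Fin M × Fin M → ℝ) → ℝ,
      W = fun β => ∑ i ∈ Finset.univ.filter (fun i => α i = β), w i := ⟨_, rfl⟩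
  have W0 : ∀ β, 0 ≤ W β := fun β => by rw [hW]; exact Finset.sum_nonneg (fun i _ => w0 i)
  obtain ⟨Q1, hQ1⟩ : ∃ Q1 : Finset (Fin M × Fin M → ℝ), Q1 = Q.filter (fun β => cnt β = 1) := ⟨_, rfl⟩
  obtain ⟨Q2, hQ2⟩ : ∃ Q2 : Finset (Fin M × Fin M → ℝ), Q2 = Q.filter (fun β => ¬ cnt β = 1) := ⟨_, rfl⟩
  have hsplit : ∀ F : (Fin M × Fin M → ℝ) → ℝ, ∑ β ∈ Q1, F β + ∑ β ∈ Q2, F β = ∑ β ∈ Q, F β := by
    intro F
    rw [hQ1, hQ2]
    exact Finset.sum_filter_add_sum_filter_not Q _ F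
  have hgroup : ∀ F : (Fin M × Fin M → ℝ) → ℝ, ∑ β ∈ Q, W β * F β = ∑ i, w i * F (α i) := by
    intro F
    have h1 : ∑ i, w i * F (α i) =
        ∑ β ∈ Q, ∑ i ∈ Finset.univ.filter (fun i => α i = β), w i * F (α i) := by
      rw [hQ]
      exact (Finset.sum_fiberwise_of_maps_to (fun i _ => Finset.mem_image_of_mem α (Finset.mem_univ i)) _).symm
    rw [h1]
    refine Finset.sum_congr rfl (fun β _ => ?_)
    rw [hW]
    show (∑ i ∈ Finset.univ.filter (fun i => α i = β), w i) * F β = _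
    rw [Finset.sum_mul]
    refine Finset.sum_congr rfl (fun i hi => ?_)
    rw [(Finset.mem_filter.1 hi).2]
  have hex : ∀ β ∈ Q, ∃ i, α i = β := by
    intro β hβ
    rw [hQ, Finset.mem_image] at hβ
    obtain ⟨i, -, hi⟩ := hβ
    exact ⟨i, hi⟩
  have hcard : Q1.card + 2 * Q2.card ≤ n := by
    have h1 : ∑ β ∈ Q, cnt β = n := by
      have h2 := Finset.card_eq_sum_card_image α (Finset.univ : Finset (Fin n))
      rw [Finset.card_univ, Fintype.card_fin] at h2
      rw [hQ, hcnt]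
      exact h2.symm
    have h3 : ∑ β ∈ Q1, cnt β + ∑ β ∈ Q2, cnt β = n := by
      rw [← h1, hQ1, hQ2]
      exact Finset.sum_filter_add_sum_filter_not Q _ cnt
    have h4 : Q1.card ≤ ∑ β ∈ Q1, cnt β := by
      rw [Finset.card_eq_sum_ones]
      refine Finset.sum_le_sum (fun β hβ => ?_)
      rw [hQ1, Finset.mem_filter] at hβ
      exact hβ.2.ge
    have h5 : 2 * Q2.card ≤ ∑ β ∈ Q2, cnt β := by
      rw [mul_comm, ← smul_eq_mul, ← Finset.sum_const]
      refine Finset.sum_le_sum (fun β hβ => ?_)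
      rw [hQ2, Finset.mem_filter] at hβ
      obtain ⟨i, hi⟩ := hex β hβ.1
      have h6 : 0 < cnt β := by
        rw [hcnt]
        exact Finset.card_pos.2 ⟨i, Finset.mem_filter.2 ⟨Finset.mem_univ i, hi⟩⟩
      have h7 := hβ.2
      omega
    omega
  have hs1 : ∀ β ∈ Q1, ∃ s : Fin M → ℝ, (∀ j, s j = 1 ∨ s j = -1) ∧ ∀ j k, β (j, k) / 2 = s j * s k := by
    intro β hβ
    rw [hQ1, Finset.mem_filter] at hβ
    obtain ⟨i, hi⟩ := hex β hβ.1
    have h6 := hβ.2
    rw [hcnt] at h6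
    obtain ⟨i', hi'⟩ := Finset.card_eq_one.1 h6
    have h7 : ∀ l, α l = β → l = i' := by
      intro l hl
      have : l ∈ Finset.univ.filter (fun i => α i = β) := Finset.mem_filter.2 ⟨Finset.mem_univ l, hl⟩
      rw [hi', Finset.mem_singleton] at this
      exact this
    have h8 := hone i (fun l hl => by rw [h7 l (hl.trans hi), h7 i hi])
    rw [hi] at h8
    exact h8
  have hs2 : ∀ β ∈ Q2, ∃ z : Fin M → ℂ, (∀ j, ‖z j‖ = 1) ∧ ∀ j k, β (j, k) / 2 = (z j * conj (z k)).re := by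
    intro β hβ
    rw [hQ2, Finset.mem_filter] at hβ
    obtain ⟨i, hi⟩ := hex β hβ.1
    have h8 := hz i
    rw [hi] at h8
    exact h8
  choose! s hs1a hs1b using hs1
  choose! z hz2a hz2b using hs2
  have hsum1 : ∀ F : (Fin M × Fin M → ℝ) → ℝ, ∑ i : Fin Q1.card, F (Q1.equivFin.symm i).1 = ∑ β ∈ Q1, F β := by
    intro F
    rw [← Finset.sum_coe_sort Q1 F]
    exact Equiv.sum_comp Q1.equivFin.symm (fun β : Q1 => F β.1)
  have hsum2 : ∀ F : (Fin M × Fin M → ℝ) → ℝ, ∑ i : Fin Q2.card, F (Q2.equivFin.symm i).1 = ∑ β ∈ Q2, F β := by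
    intro F
    rw [← Finset.sum_coe_sort Q2 F]
    exact Equiv.sum_comp Q2.equivFin.symm (fun β : Q2 => F β.1)
  refine ⟨Q1.card, Q2.card, fun i => W (Q1.equivFin.symm i).1, fun i => W (Q2.equivFin.symm i).1,
    fun j i => s (Q1.equivFin.symm i).1 j, fun j i => z (Q2.equivFin.symm i).1 j, hcard,
    fun i => W0 _, fun i => W0 _, ?_, fun j i => hs1a _ (Q1.equivFin.symm i).2 j,
    fun j i => hz2a _ (Q2.equivFin.symm i).2 j, fun j k => ?_⟩
  · rw [hsum1 W, hsum2 W, hsplit]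
    have h := hgroup (fun _ => 1)
    simp only [mul_one] at h
    rw [h, w1]
  · have h1 := hsum1 (fun β => W β * (s β j * s β k))
    have h2 := hsum2 (fun β => W β * (z β j * conj (z β k)).re)
    rw [h1, h2]
    have e1 : ∑ β ∈ Q1, W β * (s β j * s β k) = ∑ β ∈ Q1, W β * (β (j, k) / 2) :=
      Finset.sum_congr rfl (fun β hβ => by rw [hs1b β hβ j k])
    have e2 : ∑ β ∈ Q2, W β * (z β j * conj (z β k)).re = ∑ β ∈ Q2, W β * (β (j, k) / 2) :=
      Finset.sum_congr rfl (fun β hβ => by rw [hz2b β hβ j k])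
    rw [e1, e2, hsplit (fun β => W β * (β (j, k) / 2)), hgroup (fun β => β (j, k) / 2), hin j k]

end Pool.Agent.P8H65.AO
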