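import Pool.Agent.P8H19.AO.Stm

/-!
# Project AO, package CHR
-/

set_option autoImplicit false

open Finset Filter Topology

namespace Pool.Agent.P8H65.AO

open Pool.Agent.P8H19.AO

/-- **CHR.** -/
theorem t_CHR : S_CHR := by
  intro D p h hD hh
  obtain ⟨φ, hφ⟩ : ∃ φ : ℝ → ℝ, φ = fun t => ∑ j ∈ D, p j * Real.exp (t * (- Real.log (p j) - h)) :=
    ⟨_, rfl⟩
  have e0 : φ 0 = 1 := by
    rw [hφ]
    simp only [zero_mul, Real.exp_zero, mul_one]
    exact hD.sum
  have hd : HasDerivAt φ (ent D p - h) 0 := by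
    have h1 : HasDerivAt φ (∑ j ∈ D, p j * (Real.exp (0 * (- Real.log (p j) - h)) *
        (1 * (- Real.log (p j) - h)))) 0 := by
      rw [hφ]
      refine HasDerivAt.fun_sum (fun j _ => ?_)
      refine HasDerivAt.const_mul (p j) ?_
      exact ((hasDerivAt_id (0 : ℝ)).mul_const _).exp
    have h2 : ∑ j ∈ D, p j * (Real.exp (0 * (- Real.log (p j) - h)) *
        (1 * (- Real.log (p j) - h))) = ent D p - h := by
      unfold ent
      simp only [zero_mul, Real.exp_zero, one_mul]
      have h3 : ∀ j ∈ D, p j * (- Real.log (p j) - h) = -(p j * Real.log (p j)) - p j * h := by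
        intro j _
        ring
      rw [Finset.sum_congr rfl h3, Finset.sum_sub_distrib, Finset.sum_neg_distrib, ← Finset.sum_mul,
        hD.sum, one_mul]
    rw [h2] at h1
    exact h1
  have h1 := (hasDerivAt_iff_tendsto_slope.1 hd).eventually_lt_const (show ent D p - h < 0 by linarith)
  have h2 : ∀ᶠ t in 𝓝[>] (0 : ℝ), slope φ 0 t < 0 := by
    refine h1.filter_mono (nhdsWithin_mono _ ?_)
    intro t ht
    exact ne_of_gt ht
  obtain ⟨t, ht1, ht2⟩ := (h2.and self_mem_nhdsWithin).exists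
  have t0 : 0 < t := ht2
  refine ⟨t, φ t, t0, ?_, ?_, ?_⟩
  · rw [hφ]
    exact Finset.sum_nonneg (fun j hj => mul_nonneg (hD.pos j hj).le (Real.exp_pos _).le)
  · rw [slope_def_field, sub_zero, e0] at ht1
    by_contra hc
    push Not at hc
    have : 0 ≤ (φ t - 1) / t := div_nonneg (by linarith) t0.le
    linarith
  · rw [hφ]

end Pool.Agent.P8H65.AO
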