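import Pool.Agent.P8H19.AO.Stm

/-!
# Project AO, package PAIR: blocks of dimension one are joined in pairs
-/

set_option autoImplicit false

open Finset ComplexConjugate

namespace Pool.Agent.P8H65.AO

open Pool.Agent.P8H19.AO

lemma pairs (f : ℕ → ℝ) (q : ℕ) :
    ∑ i ∈ range q, (f (2 * i) + f (2 * i + 1)) = ∑ i ∈ range (2 * q), f i := by
  induction q with
  | zero => simp
  | succ q ih =>
    rw [Finset.sum_range_succ, ih, show 2 * (q + 1) = 2 * q + 1 + 1 by ring, Finset.sum_range_succ,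
      Finset.sum_range_succ]
    ring

/-- extension by `d` -/
noncomputable def ex {r : ℕ} (d : ℝ) (f : Fin r → ℝ) (i : ℕ) : ℝ := if h : i < r then f ⟨i, h⟩ else d

lemma ex_coe {r : ℕ} (d : ℝ) (f : Fin r → ℝ) (i : Fin r) : ex d f i = f i := by
  unfold ex
  rw [dif_pos i.2]

lemma ex_not {r : ℕ} (d : ℝ) (f : Fin r → ℝ) {i : ℕ} (h : ¬ i < r) : ex d f i = d := by
  unfold ex
  rw [dif_neg h]

/-- a sum over `Fin r` of products with an extension by zero -/
lemma ex_sum {r q : ℕ} (h : r ≤ 2 * q) (a : Fin r → ℝ) (g : Fin r → ℝ) (F : ℕ → ℝ)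
    (hF : ∀ i : Fin r, F i = a i * g i) (hF0 : ∀ i : ℕ, ¬ i < r → F i = 0) :
    ∑ i ∈ range (2 * q), F i = ∑ i, a i * g i := by
  have h1 : ∑ i ∈ range r, F i = ∑ i ∈ range (2 * q), F i := by
    refine Finset.sum_subset ?_ (fun i _ hi => hF0 i ?_)
    · intro i hi
      rw [Finset.mem_range] at hi ⊢
      omega
    · rw [Finset.mem_range] at hi
      exact hi
  rw [← h1, ← Fin.sum_univ_eq_sum_range]
  exact Finset.sum_congr rfl (fun i _ => hF i)

lemma pair_one (α β : ℝ) (hα : 0 ≤ α) (hβ : 0 ≤ β) : ∃ U : ℝ → ℝ → ℂ,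
    (∀ s s' : ℝ, s ^ 2 = 1 → s' ^ 2 = 1 → ‖U s s'‖ = 1) ∧
    ∀ s s' t t' : ℝ, (α + β) * (U s s' * conj (U t t')).re = α * (s * t) + β * (s' * t') := by
  by_cases h0 : α + β = 0
  · have ha : α = 0 := by linarith
    have hb : β = 0 := by linarith
    refine ⟨fun _ _ => 1, fun _ _ _ _ => by simp, fun s s' t t' => ?_⟩
    rw [ha, hb]
    ring
  · have hc : 0 < α + β := lt_of_le_of_ne (by positivity) (Ne.symm h0)
    have hs : 0 < √(α + β) := Real.sqrt_pos.2 hc
    have hss : √(α + β) * √(α + β) = α + β := Real.mul_self_sqrt hc.le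
    have sa : √α * √α = α := Real.mul_self_sqrt hα
    have sb : √β * √β = β := Real.mul_self_sqrt hβ
    refine ⟨fun s s' => ⟨√α * s / √(α + β), √β * s' / √(α + β)⟩, fun s s' h1 h2 => ?_,
      fun s s' t t' => ?_⟩
    · have e : ‖(⟨√α * s / √(α + β), √β * s' / √(α + β)⟩ : ℂ)‖ ^ 2 = 1 := by
        rw [Complex.sq_norm, Complex.normSq_mk]
        have e1 : √α * s / √(α + β) * (√α * s / √(α + β)) + √β * s' / √(α + β) * (√β * s' / √(α + β)) =
            ((√α * √α) * s ^ 2 + (√β * √β) * s' ^ 2) / (√(α + β) * √(α + β)) := by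
          ring
        rw [e1, sa, sb, hss, h1, h2, mul_one, mul_one, div_self h0]
      have h3 : 0 ≤ ‖(⟨√α * s / √(α + β), √β * s' / √(α + β)⟩ : ℂ)‖ := norm_nonneg _
      nlinarith [h3]
    · simp only [Complex.mul_re, Complex.conj_re, Complex.conj_im]
      have e1 : (α + β) * (√α * s / √(α + β) * (√α * t / √(α + β)) -
          √β * s' / √(α + β) * -(√β * t' / √(α + β))) =
          (α + β) / (√(α + β) * √(α + β)) * ((√α * √α) * (s * t) + (√β * √β) * (s' * t')) := by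
        ring
      rw [e1, sa, sb, hss, div_self h0, one_mul]

/-- **PAIR.** -/
theorem t_PAIR : S_PAIR := by
  intro n M r₁ r₂ a b σ z hn ha hb hs hσ hz
  obtain ⟨q, hq⟩ : ∃ q : ℕ, q = (r₁ + 1) / 2 := ⟨_, rfl⟩
  have hq1 : r₁ ≤ 2 * q := by omega
  have ha' : ∀ i, 0 ≤ ex 0 a i := by
    intro i
    by_cases h : i < r₁
    · exact (ex_coe 0 a ⟨i, h⟩).symm ▸ ha _
    · rw [ex_not 0 a h]
  have hσ' : ∀ j i, (ex 1 (σ j) i) ^ 2 = 1 := by
    intro j i
    by_cases h : i < r₁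
    · have e := ex_coe 1 (σ j) ⟨i, h⟩
      show (ex 1 (σ j) ((⟨i, h⟩ : Fin r₁) : ℕ)) ^ 2 = 1
      rw [e]
      rcases hσ j ⟨i, h⟩ with h1 | h1
      · rw [h1]; ring
      · rw [h1]; ring
    · rw [ex_not 1 (σ j) h]
      ring
  choose U hU1 hU2 using fun i : ℕ => pair_one (ex 0 a (2 * i)) (ex 0 a (2 * i + 1)) (ha' _) (ha' _)
  refine ⟨q + r₂, Fin.append (fun i : Fin q => ex 0 a (2 * i) + ex 0 a (2 * i + 1)) b,
    fun j => Fin.append (fun i : Fin q => U i (ex 1 (σ j) (2 * i)) (ex 1 (σ j) (2 * i + 1))) (z j),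
    ?_, ?_, ?_, ?_, ?_⟩
  · omega
  · intro i
    refine Fin.addCases (fun i => ?_) (fun i => ?_) i
    · rw [Fin.append_left]
      exact add_nonneg (ha' _) (ha' _)
    · rw [Fin.append_right]
      exact hb i
  · rw [Fin.sum_univ_add]
    simp only [Fin.append_left, Fin.append_right]
    rw [← hs]
    congr 1
    rw [Fin.sum_univ_eq_sum_range (fun i => ex 0 a (2 * i) + ex 0 a (2 * i + 1)) q, pairs]
    have h := ex_sum hq1 a (fun _ => 1) (ex 0 a) (fun i => by rw [ex_coe, mul_one])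
      (fun i hi => ex_not 0 a hi)
    rw [h]
    simp
  · intro j i
    refine Fin.addCases (fun i => ?_) (fun i => ?_) i
    · beta_reduce
      rw [Fin.append_left]
      exact hU1 _ _ _ (hσ' _ _) (hσ' _ _)
    · beta_reduce
      rw [Fin.append_right]
      exact hz j i
  · intro j k
    rw [Fin.sum_univ_add]
    simp only [Fin.append_left, Fin.append_right]
    congr 1
    simp only [hU2]
    rw [Fin.sum_univ_eq_sum_range (fun i => ex 0 a (2 * i) * (ex 1 (σ j) (2 * i) * ex 1 (σ k) (2 * i)) +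
      ex 0 a (2 * i + 1) * (ex 1 (σ j) (2 * i + 1) * ex 1 (σ k) (2 * i + 1))) q,
      pairs (fun i => ex 0 a i * (ex 1 (σ j) i * ex 1 (σ k) i)) q]
    refine ex_sum hq1 a (fun i => σ j i * σ k i) _ (fun i => ?_) (fun i hi => ?_)
    · rw [ex_coe, ex_coe, ex_coe]
    · rw [ex_not 0 a hi, zero_mul]

end Pool.Agent.P8H65.AO
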