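import Pool.Agent.P8H19.AO.Stm

/-!
# Project AO, package TYP: the typical set
-/

set_option autoImplicit false

open Finset Filter Topology

namespace Pool.Agent.P8H65.AO

open Pool.Agent.P8H19.AO

section

variable {D : Finset ℤ} {p : ℤ → ℝ}

/-- the product measure -/
noncomputable def PP {m : ℕ} (p : ℤ → ℝ) (k : Fin m → ℤ) : ℝ := ∏ i, p (k i)

/-- the support -/
def TT (D : Finset ℤ) (m : ℕ) : Finset (Fin m → ℤ) := Fintype.piFinset (fun _ => D)

lemma p_nonneg (hD : Dist D p) (j : ℤ) : 0 ≤ p j := by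
  by_cases h : j ∈ D
  · exact (hD.pos j h).le
  · rw [hD.zero j h]

lemma PP_nonneg (hD : Dist D p) {m : ℕ} (k : Fin m → ℤ) : 0 ≤ PP p k :=
  Finset.prod_nonneg (fun _ _ => p_nonneg hD _)

lemma PP_pos (hD : Dist D p) {m : ℕ} {k : Fin m → ℤ} (hk : k ∈ TT D m) : 0 < PP p k :=
  Finset.prod_pos (fun i _ => hD.pos _ (Fintype.mem_piFinset.1 hk i))

lemma PP_zero (hD : Dist D p) {m : ℕ} {k : Fin m → ℤ} (hk : k ∉ TT D m) : PP p k = 0 := by
  unfold TT at hk
  rw [Fintype.mem_piFinset] at hk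
  push Not at hk
  obtain ⟨i, hi⟩ := hk
  exact Finset.prod_eq_zero (Finset.mem_univ i) (hD.zero _ hi)

lemma sum_TT (D : Finset ℤ) (m : ℕ) (F : Fin m → ℤ → ℝ) :
    ∑ k ∈ TT D m, ∏ i, F i (k i) = ∏ i, ∑ j ∈ D, F i j := by
  unfold TT
  rw [Finset.prod_univ_sum]

lemma sum_PP (hD : Dist D p) (m : ℕ) : ∑ k ∈ TT D m, PP p k = 1 := by
  unfold PP
  rw [sum_TT D m (fun _ => p)]
  simp [hD.sum]

lemma sum_le (hD : Dist D p) {m : ℕ} (S : Finset (Fin m → ℤ)) : ∑ k ∈ S, PP p k ≤ 1 := by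
  classical
  rw [← sum_PP hD m]
  have h1 : ∑ k ∈ S, PP p k = ∑ k ∈ S.filter (fun k => k ∈ TT D m), PP p k := by
    rw [Finset.sum_filter]
    refine Finset.sum_congr rfl (fun k _ => ?_)
    by_cases h : k ∈ TT D m
    · rw [if_pos h]
    · rw [if_neg h, PP_zero hD h]
  rw [h1]
  refine Finset.sum_le_sum_of_subset_of_nonneg ?_ (fun k _ _ => PP_nonneg hD k)
  intro k hk
  exact (Finset.mem_filter.1 hk).2

lemma sum_shift {m : ℕ} (S : Finset (Fin m → ℤ)) (e : Fin m → ℤ) (f : (Fin m → ℤ) → ℝ) :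
    ∑ k ∈ S, f (k + e) = ∑ k ∈ S.map (addRightEmbedding e), f k := by
  rw [Finset.sum_map]
  rfl

lemma aff_eq (hD : Dist D p) {m : ℕ} (i : Fin m) :
    ∑ k ∈ TT D m, √(PP p k) * √(PP p (k + Pi.single i 1)) = aff D p := by
  have h1 : ∀ k : Fin m → ℤ, √(PP p k) * √(PP p (k + Pi.single i 1)) =
      ∏ l, (fun (l : Fin m) (j : ℤ) => if l = i then √(p j * p (j + 1)) else p j) l (k l) := by
    intro k
    rw [← Real.sqrt_mul (PP_nonneg hD k)]
    unfold PP
    rw [← Finset.prod_mul_distrib, Real.sqrt_eq_rpow,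
      ← Real.finsetProd_rpow _ _ (fun l _ => mul_nonneg (p_nonneg hD _) (p_nonneg hD _))]
    refine Finset.prod_congr rfl (fun l _ => ?_)
    rw [← Real.sqrt_eq_rpow]
    by_cases h : l = i
    · rw [h]
      simp
    · simp only [h, if_false, Pi.add_apply, Pi.single_eq_of_ne h, add_zero]
      exact Real.sqrt_mul_self (p_nonneg hD _)
  rw [Finset.sum_congr rfl (fun k _ => h1 k)]
  refine (sum_TT D m (fun (l : Fin m) (j : ℤ) => if l = i then √(p j * p (j + 1)) else p j)).trans ?_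
  rw [Finset.prod_eq_single i]
  · simp [aff]
  · intro l _ hl
    simp [hl, hD.sum]
  · intro h
    exact absurd (Finset.mem_univ i) h

end

/-- **TYP.** -/
theorem t_TYP : S_TYP := by
  classical
  intro hC D p h η hD hh hη
  obtain ⟨t, q, t0, q0, q1, hq⟩ := hC D p h hD hh
  obtain ⟨ρ, hρ⟩ : ∃ ρ : ℝ, ρ = min (η ^ 2 / 4) (1 / 2) := ⟨_, rfl⟩
  have ρ0 : 0 < ρ := by rw [hρ]; positivity
  have hev := (tendsto_pow_atTop_nhds_zero_of_lt_one q0 q1).eventually_le_const ρ0
  obtain ⟨m₀, hm₀⟩ := Filter.eventually_atTop.1 hev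
  refine ⟨m₀, fun m hm => ?_⟩
  have hqm := hm₀ m hm
  obtain ⟨B, hB⟩ : ∃ B : Finset (Fin m → ℤ), B = (TT D m).filter (fun k => Real.exp (-(m * h)) ≤ PP p k) :=
    ⟨_, rfl⟩
  have hBT : B ⊆ TT D m := by rw [hB]; exact Finset.filter_subset _ _
  obtain ⟨ψ, hψ⟩ : ∃ ψ : (Fin m → ℤ) → ℝ, ψ = fun k => if k ∈ B then √(PP p k) else 0 := ⟨_, rfl⟩
  have ψB : ∀ k, k ∈ B → ψ k = √(PP p k) := fun k hk => by rw [hψ]; exact if_pos hk
  have ψN : ∀ k, k ∉ B → ψ k = 0 := fun k hk => by rw [hψ]; exact if_neg hk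
  have ψ0 : ∀ k, 0 ≤ ψ k := by
    intro k
    by_cases hk : k ∈ B
    · rw [ψB k hk]; exact Real.sqrt_nonneg _
    · rw [ψN k hk]
  -- the mass outside `B`
  obtain ⟨τ, hτ⟩ : ∃ τ : ℝ, τ = ∑ k ∈ TT D m \ B, PP p k := ⟨_, rfl⟩
  have τ1 : τ ≤ q ^ m := by
    have h1 : ∀ k ∈ TT D m \ B, PP p k ≤
        ∏ i, (fun (_ : Fin m) (j : ℤ) => p j * Real.exp (t * (- Real.log (p j) - h))) i (k i) := by
      intro k hk
      rw [Finset.mem_sdiff] at hk
      have hkT := hk.1
      have hP := PP_pos hD hkT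
      have hlt : PP p k < Real.exp (-(m * h)) := by
        by_contra hc
        push Not at hc
        exact hk.2 (by rw [hB, Finset.mem_filter]; exact ⟨hkT, hc⟩)
      have hlog : Real.log (PP p k) < -(m * h) := by
        rw [← Real.log_exp (-(m * h))]
        exact Real.log_lt_log hP hlt
      have hl2 : Real.log (PP p k) = ∑ i, Real.log (p (k i)) := by
        unfold PP
        rw [Real.log_prod (fun i _ => (hD.pos _ (Fintype.mem_piFinset.1 hkT i)).ne')]
      show PP p k ≤ ∏ i, (p (k i) * Real.exp (t * (- Real.log (p (k i)) - h)))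
      rw [Finset.prod_mul_distrib, ← Real.exp_sum]
      have e1 : ∑ i, t * (- Real.log (p (k i)) - h) = t * (-(m * h) - Real.log (PP p k)) := by
        rw [← Finset.mul_sum, Finset.sum_sub_distrib, Finset.sum_neg_distrib, ← hl2, Finset.sum_const,
          Finset.card_univ, Fintype.card_fin, nsmul_eq_mul]
        ring
      rw [e1]
      have e2 : 1 ≤ Real.exp (t * (-(m * h) - Real.log (PP p k))) :=
        Real.one_le_exp (mul_nonneg t0.le (by linarith))
      exact le_mul_of_one_le_right hP.le e2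
    rw [hτ]
    refine (Finset.sum_le_sum h1).trans ?_
    refine (Finset.sum_le_sum_of_subset_of_nonneg (Finset.sdiff_subset) (fun k _ _ => ?_)).trans ?_
    · exact Finset.prod_nonneg (fun i _ => mul_nonneg (p_nonneg hD _) (Real.exp_pos _).le)
    · refine (le_of_eq (sum_TT D m
        (fun (_ : Fin m) (j : ℤ) => p j * Real.exp (t * (- Real.log (p j) - h))))).trans ?_
      rw [Finset.prod_const, Finset.card_univ, Fintype.card_fin]
      refine pow_le_pow_left₀ ?_ hq m
      exact Finset.sum_nonneg (fun j _ => mul_nonneg (p_nonneg hD _) (Real.exp_pos _).le)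
  have τ0 : 0 ≤ τ := by rw [hτ]; exact Finset.sum_nonneg (fun k _ => PP_nonneg hD k)
  have τρ : τ ≤ ρ := τ1.trans hqm
  have τhalf : τ ≤ 1 / 2 := τρ.trans (by rw [hρ]; exact min_le_right _ _)
  have τη : √τ ≤ η / 2 := by
    rw [Real.sqrt_le_left (by positivity)]
    have : τ ≤ η ^ 2 / 4 := τρ.trans (by rw [hρ]; exact min_le_left _ _)
    linarith
  have sB : ∑ k ∈ B, PP p k = 1 - τ := by
    have h1 := Finset.sum_sdiff hBT (f := PP p)
    rw [sum_PP hD m, ← hτ] at h1
    linarith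
  have sψ : ∑ k ∈ B, ψ k ^ 2 = 1 - τ := by
    rw [← sB]
    refine Finset.sum_congr rfl (fun k hk => ?_)
    rw [ψB k hk, Real.sq_sqrt (PP_nonneg hD k)]
  refine ⟨B, ψ, ?_, ψ0, ψN, by rw [sψ]; linarith, by rw [sψ]; linarith, fun i => ?_⟩
  · have h1 : (B.card : ℝ) * Real.exp (-(m * h)) ≤ 1 := by
      rw [← nsmul_eq_mul, ← Finset.sum_const]
      refine le_trans (Finset.sum_le_sum (fun k hk => ?_)) (sum_le hD B)
      rw [hB, Finset.mem_filter] at hk
      exact hk.2
    rw [Real.exp_neg, ← div_eq_mul_inv, div_le_one (Real.exp_pos _)] at h1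
    exact h1
  · obtain ⟨e, he⟩ : ∃ e : Fin m → ℤ, e = Pi.single i 1 := ⟨_, rfl⟩
    have ha := aff_eq hD i
    rw [← he] at ha ⊢
    obtain ⟨g, hg⟩ : ∃ g : (Fin m → ℤ) → ℝ, g = fun k => √(PP p k) * √(PP p (k + e)) := ⟨_, rfl⟩
    have g0 : ∀ k, 0 ≤ g k := fun k => by
      rw [hg]; exact mul_nonneg (Real.sqrt_nonneg _) (Real.sqrt_nonneg _)
    have hag : ∑ k ∈ TT D m, g k = aff D p := by rw [hg]; exact ha
    obtain ⟨S1, hS1⟩ : ∃ S1 : Finset (Fin m → ℤ), S1 = TT D m \ B := ⟨_, rfl⟩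
    obtain ⟨S3, hS3⟩ : ∃ S3 : Finset (Fin m → ℤ), S3 = (TT D m).filter (fun k => k + e ∈ TT D m \ B) :=
      ⟨_, rfl⟩
    have hpt : ∀ k ∈ TT D m, g k ≤ ψ k * ψ (k + e) + (if k ∈ S1 then g k else 0) +
        (if k ∈ S3 then g k else 0) := by
      intro k hk
      have n1 : 0 ≤ ψ k * ψ (k + e) := mul_nonneg (ψ0 _) (ψ0 _)
      have n2 : (0 : ℝ) ≤ if k ∈ S1 then g k else 0 := by split_ifs <;> simp [g0]
      have n3 : (0 : ℝ) ≤ if k ∈ S3 then g k else 0 := by split_ifs <;> simp [g0]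
      by_cases h1 : k ∈ B
      · by_cases h2 : k + e ∈ B
        · rw [ψB k h1, ψB _ h2] at *
          have : g k = √(PP p k) * √(PP p (k + e)) := by rw [hg]
          linarith
        · by_cases h3 : k + e ∈ TT D m
          · have h4 : k ∈ S3 := by
              rw [hS3, Finset.mem_filter, Finset.mem_sdiff]
              exact ⟨hk, h3, h2⟩
            rw [if_pos h4] at n3 ⊢
            linarith
          · have : g k = 0 := by
              rw [hg]
              show √(PP p k) * √(PP p (k + e)) = 0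
              rw [PP_zero hD h3, Real.sqrt_zero, mul_zero]
            linarith
      · have h4 : k ∈ S1 := by
          rw [hS1, Finset.mem_sdiff]
          exact ⟨hk, h1⟩
        rw [if_pos h4] at n2 ⊢
        linarith
    have h5 := Finset.sum_le_sum hpt
    rw [hag, Finset.sum_add_distrib, Finset.sum_add_distrib, ← Finset.sum_filter, ← Finset.sum_filter] at h5
    have e1 : (TT D m).filter (fun k => k ∈ S1) = S1 := by
      rw [hS1]
      ext k
      simp only [Finset.mem_filter, Finset.mem_sdiff]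
      tauto
    have e3 : (TT D m).filter (fun k => k ∈ S3) = S3 := by
      rw [hS3]
      ext k
      simp only [Finset.mem_filter]
      tauto
    rw [e1, e3] at h5
    have b1 : ∑ k ∈ S1, g k ≤ √τ := by
      have h6 := Real.sum_sqrt_mul_sqrt_le S1 (f := fun k => PP p k) (g := fun k => PP p (k + e))
        (fun k => PP_nonneg hD k) (fun k => PP_nonneg hD _)
      have h7 : ∑ k ∈ S1, PP p (k + e) ≤ 1 := by
        rw [sum_shift]
        exact sum_le hD _
      have h8 : √(∑ k ∈ S1, PP p (k + e)) ≤ 1 := by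
        have h9 := Real.sqrt_le_sqrt h7
        rwa [Real.sqrt_one] at h9
      rw [hg]
      refine h6.trans ?_
      rw [hS1, ← hτ] at *
      exact mul_le_of_le_one_right (Real.sqrt_nonneg _) h8
    have b3 : ∑ k ∈ S3, g k ≤ √τ := by
      have h6 := Real.sum_sqrt_mul_sqrt_le S3 (f := fun k => PP p k) (g := fun k => PP p (k + e))
        (fun k => PP_nonneg hD k) (fun k => PP_nonneg hD _)
      have h7 : ∑ k ∈ S3, PP p (k + e) ≤ τ := by
        rw [sum_shift, hτ]
        refine Finset.sum_le_sum_of_subset_of_nonneg ?_ (fun k _ _ => PP_nonneg hD k)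
        intro k hk
        rw [Finset.mem_map] at hk
        obtain ⟨k', hk', rfl⟩ := hk
        rw [hS3, Finset.mem_filter] at hk'
        exact hk'.2
      have h8 : √(∑ k ∈ S3, PP p k) ≤ 1 := by
        have h9 := Real.sqrt_le_sqrt (sum_le hD S3)
        rwa [Real.sqrt_one] at h9
      rw [hg]
      refine h6.trans ?_
      calc √(∑ k ∈ S3, PP p k) * √(∑ k ∈ S3, PP p (k + e))
          ≤ 1 * √τ := mul_le_mul h8 (Real.sqrt_le_sqrt h7) (Real.sqrt_nonneg _) zero_le_one
        _ = √τ := one_mul _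
    have h9 : ∑ k ∈ TT D m, ψ k * ψ (k + e) = ∑ k ∈ B, ψ k * ψ (k + e) := by
      refine (Finset.sum_subset hBT (fun k _ hk => ?_)).symm
      rw [ψN k hk, zero_mul]
    rw [h9] at h5
    linarith

end Pool.Agent.P8H65.AO
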